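import Mathlib
import Pool.Agent.H89.OS3

set_option autoImplicit false

namespace Pool.Agent.Results.MP_6ed805_an.Uniform

/-- The ordinal interval from 1 to omega to the power n. -/
abbrev I (n : ℕ) : Type 1 := Set.Icc (1 : Ordinal.{0}) (Ordinal.omega0 ^ (n : Ordinal.{0}))

open Pool.Agent.H89.OS in
theorem result : ∃ C : ℝ, 1 ≤ C ∧ ∀ n : ℕ, 3 ≤ n →
    ∃ T : C(I n, ℝ) →ₗᵢ[ℝ] C(I n, ℝ), ∀ f ∈ Set.range T, ∀ g ∈ Set.range T,
      min ‖f - g‖ ‖f + g‖ ≤ C * ‖|f| - |g|‖ := by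
  refine ⟨60, by norm_num, fun n hn => ?_⟩
  obtain ⟨Φ, h1, h2⟩ := main n hn
  let L : C(I n, ℝ) →ₗ[ℝ] C(I n, ℝ) :=
    { toFun := fun f => ⟨fun t => (Φ t).1 f, (cont_ev f).comp Φ.continuous⟩
      map_add' := fun f g => by
        ext t
        exact (Φ t).2.1.1 f g
      map_smul' := fun c f => by
        ext t
        exact (Φ t).2.1.2 c f }
  have hL : ∀ f t, L f t = (Φ t).1 f := fun _ _ => rfl
  have hn : ∀ f, ‖L f‖ = ‖f‖ := by
    intro f
    apply le_antisymm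
    · exact (ContinuousMap.norm_le _ (norm_nonneg _)).2 fun t => (Φ t).2.2 f
    · refine (ContinuousMap.norm_le _ (norm_nonneg _)).2 fun t => ?_
      obtain ⟨s, hs⟩ := h1 t
      have := (L f).norm_coe_le_norm s
      rw [hL, hs] at this
      exact this
  refine ⟨⟨L, hn⟩, ?_⟩
  rintro _ ⟨f, rfl⟩ _ ⟨g, rfl⟩
  show min ‖L f - L g‖ ‖L f + L g‖ ≤ 60 * ‖|L f| - |L g|‖
  rw [← map_sub, ← map_add, hn, hn]
  obtain ⟨t, ht⟩ := h2 (f - g) (f + g)
  refine ht.trans (mul_le_mul_of_nonneg_left ?_ (by norm_num))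
  have h3 := (|L f| - |L g|).norm_coe_le_norm t
  refine le_trans ?_ h3
  rw [← hL, ← hL, map_sub, map_add]
  simp only [ContinuousMap.sub_apply, ContinuousMap.add_apply, ContinuousMap.abs_apply,
    Real.norm_eq_abs]
  generalize L f t = a
  generalize L g t = b
  rcases abs_cases a with ⟨ha, _⟩ | ⟨ha, _⟩ <;> rcases abs_cases b with ⟨hb, _⟩ | ⟨hb, _⟩ <;>
    rw [ha, hb]
  · exact min_le_left _ _
  · rw [sub_neg_eq_add]; exact min_le_right _ _
  · rw [show -a - b = -(a + b) by ring, abs_neg]; exact min_le_right _ _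
  · rw [show -a - -b = -(a - b) by ring, abs_neg]; exact min_le_left _ _

end Pool.Agent.Results.MP_6ed805_an.Uniform
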